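import Pool.Agent.Run7.h744.DD.Iface

/-!
# Project DD, piece CELL: the radial cell functions
-/

set_option autoImplicit false

open MeasureTheory Set Filter Topology
open scoped InnerProductSpace ContDiff

namespace Run7.h160.DD

open Run7.h744.DD
open H772R2.NS (E3)

/-! ### Functions of one variable -/

/-- A product of a function which is smooth for `s > 0` and a smooth function which vanishes for
`s < c`, `c > 0`. -/
theorem patch {u f : ℝ → ℝ} {c : ℝ} (hc : 0 < c) (hu : ∀ s, 0 < s → ContDiffAt ℝ ∞ u s)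
    (hf : ContDiff ℝ ∞ f) (h0 : ∀ s, s < c → f s = 0) : ContDiff ℝ ∞ fun s => u s * f s := by
  rw [contDiff_iff_contDiffAt]
  intro s
  by_cases hs : 0 < s
  · exact (hu s hs).mul hf.contDiffAt
  · have h1 : (fun s => u s * f s) =ᶠ[𝓝 s] fun _ => 0 := by
      filter_upwards [Iio_mem_nhds (show s < c by linarith)] with r hr
      rw [h0 r hr, mul_zero]
    exact contDiffAt_const.congr_of_eventuallyEq h1

theorem prim_deriv {f : ℝ → ℝ} (hf : Continuous f) (a s : ℝ) :
    HasDerivAt (fun s => ∫ r in a..s, f r) (f s) s :=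
  intervalIntegral.integral_hasDerivAt_right (hf.intervalIntegrable _ _)
    (hf.stronglyMeasurableAtFilter _ _) hf.continuousAt

theorem prim_smooth {f : ℝ → ℝ} (hf : ContDiff ℝ ∞ f) (a : ℝ) :
    ContDiff ℝ ∞ fun s => ∫ r in a..s, f r := by
  rw [contDiff_infty_iff_deriv]
  refine ⟨fun s => (prim_deriv hf.continuous a s).differentiableAt, ?_⟩
  have : (deriv fun s => ∫ r in a..s, f r) = f := by
    funext s
    exact (prim_deriv hf.continuous a s).deriv
  rw [this]
  exact hf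

theorem sqrt_smooth (s : ℝ) (hs : 0 < s) : ContDiffAt ℝ ∞ Real.sqrt s :=
  Real.contDiffAt_sqrt hs.ne'

/-- The bumps. -/
theorem exists_bump : ∃ χ : Fin 3 → ℝ → ℝ, (∀ k, ContDiff ℝ ∞ (χ k)) ∧
    (∀ k s, χ k s ≠ 0 → (2 + 4 * (k : ℕ) : ℝ) / 16 ≤ s ∧ s ≤ (4 + 4 * (k : ℕ) : ℝ) / 16) ∧
    ∀ k, ∫ r in (0 : ℝ)..1, Real.sqrt r * χ k r ^ 2 = 1 := by
  have h1 : ∀ k : Fin 3, ∃ χ : ℝ → ℝ, ContDiff ℝ ∞ χ ∧
      (∀ s, χ s ≠ 0 → (2 + 4 * (k : ℕ) : ℝ) / 16 ≤ s ∧ s ≤ (4 + 4 * (k : ℕ) : ℝ) / 16) ∧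
      ∫ r in (0 : ℝ)..1, Real.sqrt r * χ r ^ 2 = 1 := by
    intro k
    obtain ⟨f, hf⟩ : ∃ f : ContDiffBump ((3 + 4 * (k : ℕ) : ℝ) / 16), f.rOut = 1 / 16 :=
      ⟨⟨1 / 32, 1 / 16, by norm_num, by norm_num⟩, rfl⟩
    have hk : (0 : ℝ) ≤ (k : ℕ) := by positivity
    have hk2 : ((k : ℕ) : ℝ) ≤ 2 := by
      have : (k : ℕ) ≤ 2 := by omega
      exact_mod_cast this
    have hs : ∀ s, f s ≠ 0 → (2 + 4 * (k : ℕ) : ℝ) / 16 ≤ s ∧ s ≤ (4 + 4 * (k : ℕ) : ℝ) / 16 := by
      intro s hs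
      have h2 : s ∈ Function.support f := hs
      rw [f.support_eq, hf, Metric.mem_ball, Real.dist_eq, abs_lt] at h2
      constructor <;> linarith [h2.1, h2.2]
    obtain ⟨T, hT⟩ : ∃ T, T = ∫ r in (0 : ℝ)..1, Real.sqrt r * f r ^ 2 := ⟨_, rfl⟩
    have hc : Continuous fun r => Real.sqrt r * f r ^ 2 := Real.continuous_sqrt.mul (f.continuous.pow 2)
    have hT0 : 0 < T := by
      rw [hT]
      refine intervalIntegral.integral_pos one_pos hc.continuousOn (fun r _ => by positivity)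
        ⟨(3 + 4 * (k : ℕ) : ℝ) / 16, ⟨by positivity, by linarith⟩, ?_⟩
      rw [f.one_of_mem_closedBall (Metric.mem_closedBall_self f.rIn_pos.le), one_pow, mul_one]
      exact Real.sqrt_pos.2 (by positivity)
    refine ⟨fun s => (Real.sqrt T)⁻¹ * f s, contDiff_const.mul f.contDiff, fun s h => hs s fun h' => h (by
      change (Real.sqrt T)⁻¹ * f s = 0
      rw [h', mul_zero]), ?_⟩
    have h3 : ∀ r, Real.sqrt r * ((Real.sqrt T)⁻¹ * f r) ^ 2 = T⁻¹ * (Real.sqrt r * f r ^ 2) := by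
      intro r
      rw [mul_pow, inv_pow, Real.sq_sqrt hT0.le]
      ring
    simp only [h3]
    rw [intervalIntegral.integral_const_mul, ← hT, inv_mul_cancel₀ hT0.ne']
  choose χ hχ using h1
  exact ⟨χ, fun k => (hχ k).1, fun k => (hχ k).2.1, fun k => (hχ k).2.2⟩

/-! ### Radial functions -/

theorem pd_radial {g : ℝ → ℝ} {g' : ℝ} {x : E3} (hg : HasDerivAt g g' (‖x‖ ^ 2)) (i : Fin 3) :
    pd i (fun y : E3 => g (‖y‖ ^ 2)) x = g' * (2 * x i) := by
  have h1 : HasFDerivAt (fun y : E3 => ‖y‖ ^ 2) (2 • (innerSL ℝ x)) x :=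
    (hasStrictFDerivAt_norm_sq x).hasFDerivAt
  have h2 : HasFDerivAt (fun y : E3 => g (‖y‖ ^ 2)) (g' • (2 • (innerSL ℝ x) : E3 →L[ℝ] ℝ)) x :=
    hg.comp_hasFDerivAt x h1
  rw [pd, h2.fderiv]
  simp [EuclideanSpace.inner_single_right]

theorem lap_radial {B h D : ℝ → ℝ} (hB : ∀ s, HasDerivAt B (h s) s) (hh : ∀ s, HasDerivAt h (D s) s)
    (x : E3) : lapS (fun y : E3 => B (‖y‖ ^ 2)) x = 4 * ‖x‖ ^ 2 * D (‖x‖ ^ 2) + 6 * h (‖x‖ ^ 2) := by
  have h1 : ∀ j, pd j (fun y : E3 => B (‖y‖ ^ 2)) = fun y => h (‖y‖ ^ 2) * (2 * y j) := fun j =>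
    funext fun y => pd_radial (hB _) j
  have h2 : ∀ j, pd j (pd j (fun y : E3 => B (‖y‖ ^ 2))) x =
      D (‖x‖ ^ 2) * (2 * x j) ^ 2 + 2 * h (‖x‖ ^ 2) := by
    intro j
    rw [h1]
    have h3 : HasFDerivAt (fun y : E3 => ‖y‖ ^ 2) (2 • (innerSL ℝ x)) x :=
      (hasStrictFDerivAt_norm_sq x).hasFDerivAt
    have h4 : HasFDerivAt (fun y : E3 => h (‖y‖ ^ 2)) (D (‖x‖ ^ 2) • (2 • (innerSL ℝ x) : E3 →L[ℝ] ℝ)) x :=
      (hh _).comp_hasFDerivAt x h3
    have h5 : HasFDerivAt (fun y : E3 => y j) (EuclideanSpace.proj (𝕜 := ℝ) j : E3 →L[ℝ] ℝ) x :=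
      (EuclideanSpace.proj (𝕜 := ℝ) j : E3 →L[ℝ] ℝ).hasFDerivAt
    have h6 : HasFDerivAt (fun y : E3 => h (‖y‖ ^ 2) * (2 * y j)) _ x := h4.mul (h5.const_mul 2)
    rw [pd, h6.fderiv]
    simp [EuclideanSpace.inner_single_right]
    ring
  have h3 : ‖x‖ ^ 2 = ∑ j, x j ^ 2 := by
    rw [EuclideanSpace.norm_sq_eq]
    simp
  rw [lapS, Finset.sum_congr rfl fun j _ => h2 j]
  simp only [Fin.sum_univ_three] at h3 ⊢
  rw [show 4 * ‖x‖ ^ 2 * D (‖x‖ ^ 2) = 4 * (x 0 ^ 2 + x 1 ^ 2 + x 2 ^ 2) * D (‖x‖ ^ 2) by rw [← h3]]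
  ring

theorem t_CELL : S_CELL := by
  obtain ⟨χ, hχs, hχ0, hχ1⟩ := exists_bump
  have hz1 : ∀ k s, s < 1 / 8 → χ k s = 0 := by
    intro k s hs
    by_contra h
    have h1 := (hχ0 k s h).1
    have hk : (0 : ℝ) ≤ (k : ℕ) := by positivity
    linarith
  have hz2 : ∀ k s, 3 / 4 < s → χ k s = 0 := by
    intro k s hs
    by_contra h
    have h1 := (hχ0 k s h).2
    have hk2 : ((k : ℕ) : ℝ) ≤ 2 := by
      have : (k : ℕ) ≤ 2 := by omega
      exact_mod_cast this
    linarith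
  -- the functions of one variable
  obtain ⟨Kf, hKf⟩ : ∃ Kf : Fin 3 → ℝ → ℝ, ∀ k r, Kf k r = Real.sqrt r * χ k r ^ 2 :=
    ⟨_, fun _ _ => rfl⟩
  have hKs : ∀ k, ContDiff ℝ ∞ (Kf k) := by
    intro k
    have h1 : Kf k = fun r => Real.sqrt r * χ k r ^ 2 := funext (hKf k)
    rw [h1]
    exact patch (c := 1 / 8) (by norm_num) sqrt_smooth ((hχs k).pow 2) fun s hs => by
      rw [hz1 k s hs]
      norm_num
  have hKz1 : ∀ k s, s < 1 / 8 → Kf k s = 0 := fun k s hs => by
    rw [hKf, hz1 k s hs]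
    norm_num
  have hKz2 : ∀ k s, 3 / 4 < s → Kf k s = 0 := fun k s hs => by
    rw [hKf, hz2 k s hs]
    norm_num
  have hK0 : ∀ k s, 0 ≤ Kf k s := fun k s => by
    rw [hKf]
    positivity
  have hK1 : ∀ k, ∫ r in (0 : ℝ)..1, Kf k r = 1 := fun k => by
    simp only [hKf]
    exact hχ1 k
  have hKi : ∀ k p q, IntervalIntegrable (Kf k) volume p q := fun k p q =>
    (hKs k).continuous.intervalIntegrable _ _
  obtain ⟨G, hG⟩ : ∃ G : Fin 3 → ℝ → ℝ, ∀ k s, G k s = 1 / 4 * ∫ r in (0 : ℝ)..s, (Kf k r - Kf 2 r) :=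
    ⟨_, fun _ _ => rfl⟩
  have hGs : ∀ k, ContDiff ℝ ∞ (G k) := by
    intro k
    have h1 : G k = fun s => 1 / 4 * ∫ r in (0 : ℝ)..s, (Kf k r - Kf 2 r) := funext (hG k)
    rw [h1]
    exact contDiff_const.mul (prim_smooth ((hKs k).sub (hKs 2)) 0)
  have hGd : ∀ k s, HasDerivAt (G k) (1 / 4 * (Kf k s - Kf 2 s)) s := by
    intro k s
    have h1 : G k = fun s => 1 / 4 * ∫ r in (0 : ℝ)..s, (Kf k r - Kf 2 r) := funext (hG k)
    rw [h1]
    exact (prim_deriv ((hKs k).sub (hKs 2)).continuous 0 s).const_mul _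
  have hGz1 : ∀ k s, s < 1 / 8 → G k s = 0 := by
    intro k s hs
    rw [hG, intervalIntegral.integral_congr (g := fun _ => (0 : ℝ)) fun r hr => ?_]
    · simp
    · have h1 : r ≤ max 0 s := hr.2
      have h2 : r < 1 / 8 := lt_of_le_of_lt h1 (max_lt (by norm_num) hs)
      simp only [hKz1 k r h2, hKz1 2 r h2, sub_zero]
  have hGz2 : ∀ k s, 3 / 4 < s → G k s = 0 := by
    intro k s hs
    have h1 : ∫ r in (0 : ℝ)..s, (Kf k r - Kf 2 r) = (∫ r in (0 : ℝ)..1, (Kf k r - Kf 2 r)) +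
        ∫ r in (1 : ℝ)..s, (Kf k r - Kf 2 r) :=
      (intervalIntegral.integral_add_adjacent_intervals ((hKi k _ _).sub (hKi 2 _ _))
        ((hKi k _ _).sub (hKi 2 _ _))).symm
    have h2 : ∫ r in (1 : ℝ)..s, (Kf k r - Kf 2 r) = 0 := by
      rw [intervalIntegral.integral_congr (g := fun _ => (0 : ℝ)) fun r hr => ?_]
      · simp
      · have h1 : min 1 s ≤ r := hr.1
        have h2 : 3 / 4 < r := lt_of_lt_of_le (lt_min (by norm_num) hs) h1
        simp only [hKz2 k r h2, hKz2 2 r h2, sub_zero]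
    rw [hG, h1, h2, intervalIntegral.integral_sub (hKi k _ _) (hKi 2 _ _), hK1, hK1]
    norm_num
  -- `h = s ^ (-3/2) G`
  obtain ⟨u, hu⟩ : ∃ u : ℝ → ℝ, ∀ s, u s = (s * Real.sqrt s)⁻¹ := ⟨_, fun _ => rfl⟩
  have hus : ∀ s, 0 < s → ContDiffAt ℝ ∞ u s := by
    intro s hs
    have h1 : u = fun s => (s * Real.sqrt s)⁻¹ := funext hu
    rw [h1]
    exact (contDiffAt_id.mul (sqrt_smooth s hs)).inv (mul_pos hs (Real.sqrt_pos.2 hs)).ne'
  have hud : ∀ s, 0 < s → HasDerivAt u (-(3 / 2) * (u s / s)) s := by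
    intro s hs
    have h1 : u = fun s => (s * Real.sqrt s)⁻¹ := funext hu
    have h2 := Real.sqrt_pos.2 hs
    have h3 : HasDerivAt (fun s => (s * Real.sqrt s)⁻¹)
        (-(1 * Real.sqrt s + s * (1 / (2 * Real.sqrt s))) / (s * Real.sqrt s) ^ 2) s :=
      ((hasDerivAt_id s).mul (Real.hasDerivAt_sqrt hs.ne')).inv (mul_pos hs h2).ne'
    have h4 := Real.sq_sqrt hs.le
    have h5 : -(3 / 2) * (u s / s) =
        -(1 * Real.sqrt s + s * (1 / (2 * Real.sqrt s))) / (s * Real.sqrt s) ^ 2 := by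
      rw [hu]
      obtain ⟨q, hq⟩ : ∃ q, q = Real.sqrt s := ⟨_, rfl⟩
      rw [← hq] at h2 h4 ⊢
      rw [← h4]
      field_simp
      ring
    rw [h5, h1]
    exact h3
  obtain ⟨hf, hhf⟩ : ∃ hf : Fin 3 → ℝ → ℝ, ∀ k s, hf k s = u s * G k s := ⟨_, fun _ _ => rfl⟩
  have hfs : ∀ k, ContDiff ℝ ∞ (hf k) := by
    intro k
    have h1 : hf k = fun s => u s * G k s := funext (hhf k)
    rw [h1]
    exact patch (c := 1 / 8) (by norm_num) hus (hGs k) (hGz1 k)
  have hfz2 : ∀ k s, 3 / 4 < s → hf k s = 0 := fun k s hs => by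
    rw [hhf, hGz2 k s hs, mul_zero]
  have hfd : ∀ k s, HasDerivAt (hf k) (deriv (hf k) s) s := fun k s =>
    ((hfs k).differentiable (by simp) s).hasDerivAt
  have hfe : ∀ k s, 0 ≤ s → 4 * s * deriv (hf k) s + 6 * hf k s = χ k s ^ 2 - χ 2 s ^ 2 := by
    intro k s hs
    rcases hs.eq_or_lt with rfl | hs
    · rw [hhf, hGz1 k 0 (by norm_num), hz1 k 0 (by norm_num), hz1 2 0 (by norm_num)]
      ring
    · have h1 : HasDerivAt (hf k) (-(3 / 2) * (u s / s) * G k s +
          u s * (1 / 4 * (Kf k s - Kf 2 s))) s := by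
        have h2 : hf k = fun s => u s * G k s := funext (hhf k)
        rw [h2]
        exact (hud s hs).mul (hGd k s)
      have h2 := Real.sqrt_pos.2 hs
      have h4 := Real.mul_self_sqrt hs.le
      rw [h1.deriv, hhf, hKf, hKf, hu]
      field_simp
      ring
  obtain ⟨B, hB⟩ : ∃ B : Fin 3 → ℝ → ℝ, ∀ k s, B k s = ∫ r in (1 : ℝ)..s, hf k r :=
    ⟨_, fun _ _ => rfl⟩
  have hBs : ∀ k, ContDiff ℝ ∞ (B k) := by
    intro k
    have h1 : B k = fun s => ∫ r in (1 : ℝ)..s, hf k r := funext (hB k)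
    rw [h1]
    exact prim_smooth (hfs k) 1
  have hBd : ∀ k s, HasDerivAt (B k) (hf k s) s := by
    intro k s
    have h1 : B k = fun s => ∫ r in (1 : ℝ)..s, hf k r := funext (hB k)
    rw [h1]
    exact prim_deriv (hfs k).continuous 1 s
  have hBz2 : ∀ k s, 3 / 4 < s → B k s = 0 := by
    intro k s hs
    rw [hB, intervalIntegral.integral_congr (g := fun _ => (0 : ℝ)) fun r hr => ?_]
    · simp
    · have h1 : min 1 s ≤ r := hr.1
      exact hfz2 k r (lt_of_lt_of_le (lt_min (by norm_num) hs) h1)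
  -- the functions on the space
  have hn2 : ContDiff ℝ ∞ fun x : E3 => ‖x‖ ^ 2 := contDiff_norm_sq ℝ
  have hball : ∀ f : E3 → ℝ, (∀ x, f x ≠ 0 → ‖x‖ ^ 2 ≤ 3 / 4) → tsupport f ⊆ Metric.closedBall 0 1 := by
    intro f hf
    refine closure_minimal (fun x hx => ?_) Metric.isClosed_closedBall
    have h1 := hf x hx
    rw [mem_closedBall_zero_iff]
    nlinarith [norm_nonneg x]
  refine ⟨fun k x => χ k (‖x‖ ^ 2), fun k x => B k (‖x‖ ^ 2), fun x => χ 2 (‖x‖ ^ 2) ^ 2, ?_⟩
  refine ⟨fun k => (hχs k).comp hn2, fun k => (hBs k).comp hn2, ((hχs 2).comp hn2).pow 2,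
    fun k => hball _ fun x hx => ?_, fun k => hball _ fun x hx => ?_, hball _ fun x hx => ?_,
    fun j k hjk => ?_, fun k x => ?_, ?_⟩
  · by_contra h
    exact hx (hz2 k _ (not_le.1 h))
  · by_contra h
    exact hx (hBz2 k _ (not_le.1 h))
  · by_contra h
    exact hx (by rw [hz2 2 _ (not_le.1 h)]; norm_num)
  · -- disjoint supports
    have h1 : ∀ k, tsupport (fun x : E3 => χ k (‖x‖ ^ 2)) ⊆
        {x : E3 | (2 + 4 * (k : ℕ) : ℝ) / 16 ≤ ‖x‖ ^ 2 ∧ ‖x‖ ^ 2 ≤ (4 + 4 * (k : ℕ) : ℝ) / 16} := by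
      intro k
      refine closure_minimal (fun x hx => hχ0 k _ hx) ?_
      exact (isClosed_le continuous_const hn2.continuous).inter
        (isClosed_le hn2.continuous continuous_const)
    refine Disjoint.mono (h1 j) (h1 k) (Set.disjoint_left.2 fun x hx hy => ?_)
    obtain ⟨a1, a2⟩ := hx
    obtain ⟨a3, a4⟩ := hy
    have hjk' : (j : ℕ) ≠ k := fun h => hjk (Fin.ext h)
    rcases Nat.lt_or_gt_of_ne hjk' with h | h
    · have : ((j : ℕ) : ℝ) + 1 ≤ (k : ℕ) := by exact_mod_cast h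
      linarith
    · have : ((k : ℕ) : ℝ) + 1 ≤ (j : ℕ) := by exact_mod_cast h
      linarith
  · -- the equation
    rw [lap_radial (hBd k) (hfd k), hfe k _ (by positivity)]
    ring
  · -- the integrals
    refine ⟨0, 2, ?_⟩
    have h2 : ∀ s, B 2 s = 0 := by
      intro s
      rw [hB]
      simp [hhf, hG]
    have h3 : ∫ x : E3, B 2 (‖x‖ ^ 2) = 0 := by simp [h2]
    have hG0 : ∀ s, 0 ≤ s → s ≤ 1 → 0 ≤ G 0 s := by
      intro s hs hs1
      rw [hG]
      refine mul_nonneg (by norm_num) ?_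
      rcases le_total s (9 / 16) with h | h
      · refine intervalIntegral.integral_nonneg hs fun r hr => ?_
        have h4 : Kf 2 r = 0 := by
          rw [hKf]
          have : χ 2 r = 0 := by
            by_contra h'
            have := (hχ0 2 r h').1
            norm_num at this
            linarith [hr.2]
          rw [this]
          norm_num
        rw [h4, sub_zero]
        exact hK0 0 r
      · have h4 : ∫ r in (0 : ℝ)..s, (Kf 0 r - Kf 2 r) = -∫ r in s..1, (Kf 0 r - Kf 2 r) := by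
          have h5 := intervalIntegral.integral_add_adjacent_intervals
            (((hKi 0 0 s).sub (hKi 2 0 s))) ((hKi 0 s 1).sub (hKi 2 s 1))
          have h6 : ∫ r in (0 : ℝ)..1, (Kf 0 r - Kf 2 r) = 0 := by
            rw [intervalIntegral.integral_sub (hKi 0 _ _) (hKi 2 _ _), hK1, hK1, sub_self]
          linarith
        rw [h4, ← intervalIntegral.integral_neg]
        refine intervalIntegral.integral_nonneg hs1 fun r hr => ?_
        have h5 : Kf 0 r = 0 := by
          rw [hKf]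
          have : χ 0 r = 0 := by
            by_contra h'
            have := (hχ0 0 r h').2
            norm_num at this
            linarith [hr.1]
          rw [this]
          norm_num
        rw [h5, zero_sub, neg_neg]
        exact hK0 2 r
    have hf0 : ∀ s, 0 ≤ s → s ≤ 1 → 0 ≤ hf 0 s := by
      intro s hs hs1
      rw [hhf, hu]
      exact mul_nonneg (by positivity) (hG0 s hs hs1)
    have hfp : 0 < hf 0 (1 / 2) := by
      rw [hhf, hu, hG]
      have h4 : ∫ r in (0 : ℝ)..(1 / 2), (Kf 0 r - Kf 2 r) = 1 := by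
        have h5 : ∫ r in (0 : ℝ)..(1 / 2), (Kf 0 r - Kf 2 r) = ∫ r in (0 : ℝ)..(1 / 2), Kf 0 r := by
          refine intervalIntegral.integral_congr fun r hr => ?_
          have h6 : r ≤ 1 / 2 := by
            have := hr.2
            norm_num at this
            linarith
          have h4 : Kf 2 r = 0 := by
            rw [hKf]
            have : χ 2 r = 0 := by
              by_contra h'
              have := (hχ0 2 r h').1
              norm_num at this
              linarith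
            rw [this]
            norm_num
          simp only [h4, sub_zero]
        have h7 : ∫ r in (1 / 2 : ℝ)..1, Kf 0 r = 0 := by
          rw [intervalIntegral.integral_congr (g := fun _ => (0 : ℝ)) fun r hr => ?_]
          · simp
          · have h6 : 1 / 2 ≤ r := by
              have := hr.1
              norm_num at this
              linarith
            have : χ 0 r = 0 := by
              by_contra h'
              have := (hχ0 0 r h').2
              norm_num at this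
              linarith
            simp only [hKf, this]
            norm_num
        have h8 := intervalIntegral.integral_add_adjacent_intervals (hKi 0 0 (1 / 2)) (hKi 0 (1 / 2) 1)
        rw [h7, add_zero, hK1] at h8
        rw [h5, h8]
      rw [h4]
      positivity
    have hB0 : ∀ s, 0 ≤ s → B 0 s ≤ 0 := by
      intro s hs
      rcases le_total s 1 with h | h
      · rw [hB, intervalIntegral.integral_symm]
        have : 0 ≤ ∫ r in s..1, hf 0 r :=
          intervalIntegral.integral_nonneg h fun r hr => hf0 r (hs.trans hr.1) hr.2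
        linarith
      · rw [hBz2 0 s (by linarith)]
    have hB00 : B 0 0 < 0 := by
      rw [hB, intervalIntegral.integral_symm]
      have : 0 < ∫ r in (0 : ℝ)..1, hf 0 r :=
        intervalIntegral.integral_pos one_pos (hfs 0).continuous.continuousOn
          (fun r hr => hf0 r hr.1.le hr.2) ⟨1 / 2, by constructor <;> norm_num, hfp⟩
      linarith
    have h4 : 0 < ∫ x : E3, -B 0 (‖x‖ ^ 2) := by
      refine Continuous.integral_pos_of_hasCompactSupport_nonneg_nonzero (x := 0)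
        (((hBs 0).continuous.comp hn2.continuous).neg) ?_ (fun x => ?_) ?_
      · refine HasCompactSupport.of_support_subset_isCompact (isCompact_closedBall (0 : E3) 1)
          (subset_trans (subset_tsupport _) (hball _ fun x hx => ?_))
        by_contra h
        exact hx (by rw [hBz2 0 _ (not_le.1 h), neg_zero])
      · have := hB0 (‖x‖ ^ 2) (by positivity)
        change 0 ≤ -B 0 (‖x‖ ^ 2)
        linarith
      · have : ‖(0 : E3)‖ ^ 2 = 0 := by simp
        rw [this]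
        linarith
    rw [integral_neg] at h4
    intro h5
    rw [h3] at h5
    linarith

end Run7.h160.DD
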