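import Pool.Agent.Run7.h744.DD.Iface

/-!
# Project DD, piece J: the Riesz representation
-/

set_option autoImplicit false

open MeasureTheory Set Filter Topology
open scoped InnerProductSpace ContDiff

namespace Run7.h160.DD

open Run7.h744.DD
open H772R2.NSR (Frame)

theorem t_J : S_J := by
  intro H K _ _ _ _ _ _ W m C Fr
  -- the projection to the second component
  obtain ⟨g, hg⟩ : ∃ g : W →ₗ[ℝ] K, ∀ p : W, g p = (p : H × K).2 :=
    ⟨(LinearMap.snd ℝ H K).comp W.subtype, fun _ => rfl⟩
  have hC := Fr.C0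
  have hpo : ∀ p : W, ‖(p : H × K).1‖ ≤ C * ‖g p‖ := fun p => by
    rw [hg]
    exact Fr.poinc _ p.2
  have hbd : ∀ p : W, ‖p‖ ≤ (Real.toNNReal (max C 1) : NNReal) * ‖g p‖ := by
    intro p
    rw [Real.coe_toNNReal _ (le_max_of_le_right zero_le_one)]
    change ‖(p : H × K)‖ ≤ _
    rw [Prod.norm_def]
    refine max_le ((hpo p).trans ?_) ?_
    · exact mul_le_mul_of_nonneg_right (le_max_left _ _) (norm_nonneg _)
    · rw [← hg]
      exact le_mul_of_one_le_left (norm_nonneg _) (le_max_right _ _)
  have hanti : AntilipschitzWith (Real.toNNReal (max C 1)) g :=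
    AddMonoidHomClass.antilipschitz_of_bound g hbd
  have hinj : Function.Injective g := hanti.injective
  have hcg : UniformContinuous g := by
    have : (g : W → K) = fun p : W => (p : H × K).2 := funext hg
    rw [this]
    exact uniformContinuous_snd.comp uniformContinuous_subtype_val
  have : CompleteSpace W := Fr.closedW.completeSpace_coe
  have hcl : IsClosed (LinearMap.range g : Set K) := hanti.isClosed_range hcg
  have : CompleteSpace (LinearMap.range g) := hcl.completeSpace_coe
  -- the inverse map, followed by the first component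
  let e := LinearEquiv.ofInjective g hinj
  let S0 : LinearMap.range g →ₗ[ℝ] H := ((LinearMap.fst ℝ H K).comp W.subtype).comp e.symm.toLinearMap
  have hS0 : ∀ p : W, S0 ⟨g p, ⟨p, rfl⟩⟩ = (p : H × K).1 := by
    intro p
    have h1 : e.symm ⟨g p, ⟨p, rfl⟩⟩ = p := by
      rw [LinearEquiv.symm_apply_eq]
      rfl
    change ((e.symm ⟨g p, ⟨p, rfl⟩⟩ : W) : H × K).1 = _
    rw [h1]
  have hS1 : ∀ r, ‖S0 r‖ ≤ C * ‖r‖ := by
    rintro ⟨r, p, rfl⟩
    rw [hS0]
    exact hpo p
  let S : LinearMap.range g →L[ℝ] H := S0.mkContinuous C hS1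
  let T : K →L[ℝ] H := S.comp (LinearMap.range g).orthogonalProjectionOnto
  have hT : ∀ p : W, T (g p) = (p : H × K).1 := by
    intro p
    change S0 ((LinearMap.range g).orthogonalProjectionOnto (g p)) = _
    have h1 : (LinearMap.range g).orthogonalProjectionOnto (g p) = ⟨g p, ⟨p, rfl⟩⟩ :=
      Submodule.orthogonalProjectionOnto_mem_subspace_eq_self (K := LinearMap.range g) ⟨g p, ⟨p, rfl⟩⟩
    rw [h1, hS0]
  have hTb : ∀ y, ‖T y‖ ≤ C * ‖y‖ := by
    intro y
    change ‖S0 ((LinearMap.range g).orthogonalProjectionOnto y)‖ ≤ _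
    refine (hS1 _).trans (mul_le_mul_of_nonneg_left ?_ hC.le)
    exact Submodule.norm_orthogonalProjectionOnto_apply_le _ _
  refine ⟨ContinuousLinearMap.adjoint T, ?_, ?_⟩
  · intro x p hp
    rw [ContinuousLinearMap.adjoint_inner_left]
    have := hT ⟨p, hp⟩
    rw [hg] at this
    rw [this]
  · intro x
    have h1 : ‖ContinuousLinearMap.adjoint T‖ ≤ C := by
      rw [LinearIsometryEquiv.norm_map]
      exact T.opNorm_le_bound hC.le hTb
    exact (ContinuousLinearMap.adjoint T).le_of_opNorm_le h1 x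

end Run7.h160.DD
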