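import Pool.Agent.Run7.h744.DD.Iface

/-!
# Project DD, piece OSC: the packets tend to `0` weakly
-/

set_option autoImplicit false

open MeasureTheory Set Filter Topology
open scoped InnerProductSpace ContDiff

namespace Run7.h160.DD

open Run7.h744.DD
open H772R2.NS (E3)

theorem pd_cont {f : E3 → ℝ} (hf : ContDiff ℝ ∞ f) (i : Fin 3) : ContDiff ℝ ∞ (pd i f) := by
  unfold pd
  exact (hf.fderiv_right (m := ∞) (by norm_num)).clm_apply contDiff_const

theorem pd_supp {f : E3 → ℝ} (hf : HasCompactSupport f) (i : Fin 3) : HasCompactSupport (pd i f) := by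
  have h := hf.fderiv_apply (𝕜 := ℝ) (v := EuclideanSpace.single i 1)
  exact h

/-- Integration by parts. -/
theorem parts {f g : E3 → ℝ} (hf : ContDiff ℝ ∞ f) (hg : ContDiff ℝ ∞ g) (hc : HasCompactSupport g)
    (i : Fin 3) : ∫ x, pd i f x * g x = -∫ x, f x * pd i g x := by
  have h1 : Integrable fun x => pd i f x * g x :=
    ((pd_cont hf i).continuous.mul hg.continuous).integrable_of_hasCompactSupport hc.mul_left
  have h2 : Integrable fun x => f x * pd i g x :=
    (hf.continuous.mul (pd_cont hg i).continuous).integrable_of_hasCompactSupport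
      (pd_supp hc i).mul_left
  have h3 : Integrable fun x => f x * g x :=
    (hf.continuous.mul hg.continuous).integrable_of_hasCompactSupport hc.mul_left
  have h := integral_mul_fderiv_eq_neg_fderiv_mul_of_integrable (μ := (volume : Measure E3))
    (v := EuclideanSpace.single i (1 : ℝ)) h1 h2 h3 (fun x _ => hf.differentiable (by simp) x)
    (fun x _ => hg.differentiable (by simp) x)
  rw [show (∫ x, f x * pd i g x) = -∫ x, pd i f x * g x from h, neg_neg]

theorem t_OSC : S_OSC := by
  intro ν U0 V a l φ hU hV ha hφ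
  have hφi : ∀ i, ContDiff ℝ ∞ fun x => φ x i := fun i => by
    have := hφ.smooth
    exact contDiff_euclidean.1 this i
  have hφc : ∀ i, HasCompactSupport fun x => φ x i := fun i =>
    hφ.compact.comp_left (g := fun v : E3 => v i) rfl
  obtain ⟨h, hh⟩ : ∃ h : E3 → ℝ, h = fun x => a x * (pd l (fun y => φ y (l + 1)) x -
      pd (l + 1) (fun y => φ y l) x) := ⟨_, rfl⟩
  have hhs : ContDiff ℝ ∞ h := by
    rw [hh]
    exact ha.smooth.mul ((pd_cont (hφi _) _).sub (pd_cont (hφi _) _))
  have hhc : HasCompactSupport h := by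
    rw [hh]
    exact ha.compact.mul_right
  have hll : l ≠ l + 1 := by fin_cases l <;> decide
  -- the value at `0`
  have hpsi : ∀ lam : ℝ, psi ν lam U0 V a (l + 1) 0 = fun x => a x * Real.sin (lam * x (l + 1)) := by
    intro lam
    funext x
    simp [psi, bt]
  have hco : ContDiff ℝ ∞ fun x : E3 => x (l + 1) := contDiff_euclidean.1 contDiff_id (l + 1)
  have hsin : ∀ lam : ℝ, ContDiff ℝ ∞ fun x : E3 => Real.sin (lam * x (l + 1)) := fun lam =>
    Real.contDiff_sin.comp (contDiff_const.mul hco)
  have hcos : ∀ lam : ℝ, ContDiff ℝ ∞ fun x : E3 => Real.cos (lam * x (l + 1)) := fun lam =>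
    Real.contDiff_cos.comp (contDiff_const.mul hco)
  have hpsis : ∀ lam : ℝ, ContDiff ℝ ∞ (psi ν lam U0 V a (l + 1) 0) := fun lam => by
    rw [hpsi]
    exact ha.smooth.mul (hsin lam)
  -- first integration by parts
  have e1 : ∀ lam : ℝ, ∫ x, ∑ i, pkt ν lam U0 V a l 0 x i * φ x i =
      ∫ x, Real.sin (lam * x (l + 1)) * h x := by
    intro lam
    have h1 : ∀ x, ∑ i, pkt ν lam U0 V a l 0 x i * φ x i =
        pd (l + 1) (psi ν lam U0 V a (l + 1) 0) x * φ x l -
          pd l (psi ν lam U0 V a (l + 1) 0) x * φ x (l + 1) := by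
      intro x
      have h2 : ∀ i, pkt ν lam U0 V a l 0 x i * φ x i =
          (if i = l then pd (l + 1) (psi ν lam U0 V a (l + 1) 0) x * φ x l else 0) -
          (if i = l + 1 then pd l (psi ν lam U0 V a (l + 1) 0) x * φ x (l + 1) else 0) := by
        intro i
        change (if i = l then pd (l + 1) (psi ν lam U0 V a (l + 1) 0) x
          else if i = l + 1 then -pd l (psi ν lam U0 V a (l + 1) 0) x else 0) * φ x i = _
        by_cases h3 : i = l
        · subst h3
          rw [if_pos rfl, if_pos rfl, if_neg hll, sub_zero]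
        · by_cases h4 : i = l + 1
          · subst h4
            rw [if_neg h3, if_pos rfl, if_neg h3, if_pos rfl]
            ring
          · rw [if_neg h3, if_neg h4, if_neg h3, if_neg h4]
            ring
      rw [Finset.sum_congr rfl fun i _ => h2 i, Finset.sum_sub_distrib]
      simp
    have hi1 : Integrable fun x => pd (l + 1) (psi ν lam U0 V a (l + 1) 0) x * φ x l :=
      ((pd_cont (hpsis lam) _).continuous.mul (hφi _).continuous).integrable_of_hasCompactSupport
        (hφc _).mul_left
    have hi2 : Integrable fun x => pd l (psi ν lam U0 V a (l + 1) 0) x * φ x (l + 1) :=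
      ((pd_cont (hpsis lam) _).continuous.mul (hφi _).continuous).integrable_of_hasCompactSupport
        (hφc _).mul_left
    have hi3 : Integrable fun x => psi ν lam U0 V a (l + 1) 0 x * pd (l + 1) (fun y => φ y l) x :=
      ((hpsis lam).continuous.mul (pd_cont (hφi _) _).continuous).integrable_of_hasCompactSupport
        (pd_supp (hφc _) _).mul_left
    have hi4 : Integrable fun x => psi ν lam U0 V a (l + 1) 0 x * pd l (fun y => φ y (l + 1)) x :=
      ((hpsis lam).continuous.mul (pd_cont (hφi _) _).continuous).integrable_of_hasCompactSupport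
        (pd_supp (hφc _) _).mul_left
    rw [integral_congr_ae (Eventually.of_forall h1), integral_sub hi1 hi2,
      parts (hpsis lam) (hφi l) (hφc l) (l + 1),
      parts (hpsis lam) (hφi (l + 1)) (hφc (l + 1)) l, sub_neg_eq_add, neg_add_eq_sub,
      ← integral_sub hi4 hi3]
    refine integral_congr_ae (Eventually.of_forall fun x => ?_)
    simp only [hpsi, hh]
    ring
  -- second integration by parts
  have e2 : ∀ lam : ℝ, 0 < lam → ∫ x, Real.sin (lam * x (l + 1)) * h x =
      lam⁻¹ * ∫ x, Real.cos (lam * x (l + 1)) * pd (l + 1) h x := by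
    intro lam hlam
    have h1 : ∀ x, pd (l + 1) (fun y : E3 => Real.cos (lam * y (l + 1))) x =
        -(lam * Real.sin (lam * x (l + 1))) := by
      intro x
      have h2 : HasFDerivAt (fun y : E3 => y (l + 1)) (EuclideanSpace.proj (𝕜 := ℝ) (l + 1) :
          E3 →L[ℝ] ℝ) x := (EuclideanSpace.proj (𝕜 := ℝ) (l + 1) : E3 →L[ℝ] ℝ).hasFDerivAt
      have h3 := (h2.const_mul lam).cos
      rw [pd, h3.fderiv]
      simp [mul_comm]
    have h2 := parts (hcos lam) hhs hhc (l + 1)
    have h3 : ∫ x, pd (l + 1) (fun y : E3 => Real.cos (lam * y (l + 1))) x * h x =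
        (-lam) * ∫ x, Real.sin (lam * x (l + 1)) * h x := by
      rw [← integral_const_mul]
      refine integral_congr_ae (Eventually.of_forall fun x => ?_)
      simp only [h1]
      ring
    rw [h3] at h2
    rw [eq_inv_mul_iff_mul_eq₀ hlam.ne']
    linarith
  have e3 : ∀ lam : ℝ, 0 < lam → ‖∫ x, ∑ i, pkt ν lam U0 V a l 0 x i * φ x i‖ ≤
      lam⁻¹ * ∫ x, ‖pd (l + 1) h x‖ := by
    intro lam hlam
    rw [e1, e2 lam hlam, norm_mul, Real.norm_of_nonneg (inv_pos.2 hlam).le]
    refine mul_le_mul_of_nonneg_left ?_ (inv_pos.2 hlam).le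
    refine norm_integral_le_of_norm_le ?_ (Eventually.of_forall fun x => ?_)
    · exact ((pd_cont hhs _).continuous.integrable_of_hasCompactSupport (pd_supp hhc _)).norm
    · rw [norm_mul]
      exact mul_le_of_le_one_left (norm_nonneg _) (by
        rw [Real.norm_eq_abs]; exact Real.abs_cos_le_one _)
  refine squeeze_zero_norm' (a := fun lam : ℝ => lam⁻¹ * ∫ x, ‖pd (l + 1) h x‖) ?_ ?_
  · filter_upwards [eventually_gt_atTop 0] with lam hlam
    exact e3 lam hlam
  · simpa using tendsto_inv_atTop_zero.mul_const (∫ x, ‖pd (l + 1) h x‖)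

end Run7.h160.DD
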